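import Pool.Agent.W263.BSD.Defs

/-!
# Numbers of points of quadratic twists
-/

set_option autoImplicit false

namespace Pool.Agent.Q5.SC

open Pool.Agent.W263.BSD

variable {a b : ℤ} {p : ℕ}

theorem pointCount_eq (a b : ℤ) [Fact p.Prime] (hp : p ≠ 2) :
    (pointCount a b p : ℤ) =
      ∑ x : ZMod p, (1 + quadraticChar (ZMod p) (x ^ 3 + (a : ZMod p) * x + (b : ZMod p))) := by
  classical
  have hch : ringChar (ZMod p) ≠ 2 := by rwa [ZMod.ringChar_zmod_n]
  unfold pointCount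
  have e : {q : ZMod p × ZMod p // q.2 ^ 2 = q.1 ^ 3 + (a : ZMod p) * q.1 + (b : ZMod p)} ≃
      Σ x : ZMod p, {y : ZMod p // y ^ 2 = x ^ 3 + (a : ZMod p) * x + (b : ZMod p)} :=
    { toFun := fun q => ⟨q.1.1, q.1.2, q.2⟩
      invFun := fun q => ⟨(q.1, q.2.1), q.2.2⟩
      left_inv := fun q => rfl
      right_inv := fun q => rfl }
  rw [Nat.card_congr e, Nat.card_sigma]
  push_cast
  refine Finset.sum_congr rfl fun x _ => ?_
  have h1 := quadraticChar_card_sqrts hch (x ^ 3 + (a : ZMod p) * x + (b : ZMod p))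
  rw [add_comm (1 : ℤ), ← h1, Nat.card_eq_fintype_card, Set.toFinset_card]
  rfl

theorem pointCount_twist (a b : ℤ) (hp : p.Prime) (hp2 : p ≠ 2) {D : ℤ} (hD : ¬ (p : ℤ) ∣ D) :
    ((pointCount (a * D ^ 2) (b * D ^ 3) p : ℤ) - p) = jacobiSym D p * (pointCount a b p - p) := by
  have : Fact p.Prime := ⟨hp⟩
  rw [pointCount_eq _ _ hp2, pointCount_eq _ _ hp2, ← jacobiSym.legendreSym.to_jacobiSym]
  have hD0 : (D : ZMod p) ≠ 0 := by
    rwa [Ne, ZMod.intCast_zmod_eq_zero_iff_dvd]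
  rw [Finset.sum_add_distrib, Finset.sum_add_distrib]
  have hc : ∑ _x : ZMod p, (1 : ℤ) = p := by simp
  rw [hc, add_sub_cancel_left, add_sub_cancel_left, Finset.mul_sum]
  rw [← Equiv.sum_comp (Equiv.mulLeft₀ (D : ZMod p) hD0)]
  refine Finset.sum_congr rfl fun x _ => ?_
  have e0 : Equiv.mulLeft₀ (D : ZMod p) hD0 x = (D : ZMod p) * x := rfl
  rw [e0]
  unfold legendreSym
  have e1 : ((D : ZMod p) * x) ^ 3 + ((a * D ^ 2 : ℤ) : ZMod p) * ((D : ZMod p) * x) +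
      ((b * D ^ 3 : ℤ) : ZMod p) = (D : ZMod p) ^ 2 * ((D : ZMod p) * (x ^ 3 + (a : ZMod p) * x +
        (b : ZMod p))) := by
    push_cast
    ring
  rw [e1, map_mul, map_mul, quadraticChar_sq_one' hD0, one_mul]

theorem pointCount_le_two_mul (a b : ℤ) (hp : p.Prime) (hp2 : p ≠ 2) : pointCount a b p ≤ 2 * p := by
  have : Fact p.Prime := ⟨hp⟩
  have h1 := pointCount_eq a b (p := p) hp2
  have h2 : ∑ x : ZMod p, (1 + quadraticChar (ZMod p) (x ^ 3 + (a : ZMod p) * x + (b : ZMod p))) ≤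
      ∑ _x : ZMod p, (2 : ℤ) := by
    refine Finset.sum_le_sum fun x _ => ?_
    have : quadraticChar (ZMod p) (x ^ 3 + (a : ZMod p) * x + (b : ZMod p)) ≤ 1 := by
      by_cases h : x ^ 3 + (a : ZMod p) * x + (b : ZMod p) = 0
      · rw [h]; simp
      · rcases quadraticChar_dichotomy h with h | h <;> rw [h] <;> norm_num
    linarith
  have h3 : ∑ _x : ZMod p, (2 : ℤ) = 2 * p := by simp [mul_comm]
  rw [h3] at h2
  omega

end Pool.Agent.Q5.SC
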